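/- MP_8e9e20_co, part HS: the Hoffman-Singleton block. -/
import Pool.Agent.Helper48.AED.Spec2

open Finset Matrix

namespace Pool.Agent.Helper81.AED.HS

open Pool.AED48

theorem finrank_range {N : ℕ} (P : Matrix (Fin N) (Fin N) ℝ) (hP : P * P = P) (m : ℕ)
    (ht : P.trace = m) :
    Module.finrank ℝ (LinearMap.range (Matrix.toLpLin 2 2 P :
      EuclideanSpace ℝ (Fin N) →ₗ[ℝ] EuclideanSpace ℝ (Fin N))) = m := by
  set T : EuclideanSpace ℝ (Fin N) →ₗ[ℝ] EuclideanSpace ℝ (Fin N) :=
    Matrix.toLpLin 2 2 P with hT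
  have hid : IsIdempotentElem T := by
    have := Matrix.toLpLin_mul_same 2 P P
    rw [hP] at this
    exact this.symm
  have hpr := LinearMap.IsIdempotentElem.isProj_range T hid
  have h1 := hpr.trace
  have h2 : LinearMap.trace ℝ _ T = P.trace := by
    rw [hT, Matrix.toLpLin_eq_toLin]
    exact Matrix.trace_toLin_eq P _
  rw [h2, ht] at h1
  exact_mod_cast h1.symm

/-- a symmetric idempotent of trace `m` is the Gram matrix of vectors of `ℝ^m` -/
theorem gram {N m : ℕ} (P : Matrix (Fin N) (Fin N) ℝ) (hP : P * P = P)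
    (hs : ∀ i j, P i j = P j i) (ht : P.trace = m) :
    ∃ x : Fin N → EuclideanSpace ℝ (Fin m), ∀ i j, inner ℝ (x i) (x j) = P i j := by
  have hf := finrank_range P hP m ht
  set T : EuclideanSpace ℝ (Fin N) →ₗ[ℝ] EuclideanSpace ℝ (Fin N) :=
    Matrix.toLpLin 2 2 P with hT
  let b := (stdOrthonormalBasis ℝ (LinearMap.range T)).reindex (finCongr hf)
  refine ⟨fun i => b.repr ⟨T (WithLp.toLp 2 (Pi.single i 1)), LinearMap.mem_range_self _ _⟩, ?_⟩
  intro i j
  rw [LinearIsometryEquiv.inner_map_map]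
  have hTi : ∀ i, T (WithLp.toLp 2 (Pi.single i 1)) = WithLp.toLp 2 (fun k => P k i) := by
    intro i
    rw [hT, Matrix.toLpLin_apply]
    congr 1
    ext k
    simp [Matrix.mulVec, dotProduct, Pi.single_apply]
  rw [Submodule.coe_inner]
  simp only [hTi]
  have h1 : inner ℝ (WithLp.toLp 2 (fun k => P k i) : EuclideanSpace ℝ (Fin N))
      (WithLp.toLp 2 (fun k => P k j)) = ∑ k, P k i * P k j := by
    simp only [PiLp.inner_apply, RCLike.inner_apply, conj_trivial]
    exact Finset.sum_congr rfl (fun k _ => mul_comm _ _)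
  rw [h1]
  have h2 : (P * P) i j = P i j := by rw [hP]
  rw [Matrix.mul_apply] at h2
  rw [← h2]
  exact Finset.sum_congr rfl (fun k _ => by rw [hs k i])

theorem main (h : S_HSG) : S_HS := by
  obtain ⟨A, hsymm, hle, hdiag, hsq⟩ := h
  -- regularity
  have hreg : ∀ i, ∑ k, A i k = 7 := by
    intro i
    have h1 := hsq i i
    rw [hdiag i, if_pos rfl, add_zero] at h1
    rw [← h1]
    refine Finset.sum_congr rfl (fun k _ => ?_)
    rw [hsymm k i]
    have := hle i k
    interval_cases (A i k) <;> rfl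
  have hreg' : ∀ j, ∑ k, A k j = 7 := by
    intro j
    rw [← hreg j]
    exact Finset.sum_congr rfl (fun k _ => hsymm k j)
  have htri : ∀ i j k, i ≠ j → A i j = 1 → A i k * A k j = 0 := by
    intro i j k hij h1
    have h2 := hsq i j
    rw [if_neg hij, h1] at h2
    have h3 : ∑ k, A i k * A k j = 0 := by omega
    rw [Finset.sum_eq_zero_iff] at h3
    exact h3 k (Finset.mem_univ k)
  have hregR : ∀ i, ∑ k, (A i k : ℝ) = 7 := fun i => by exact_mod_cast hreg i
  have hregR' : ∀ i, ∑ k, (A k i : ℝ) = 7 := fun i => by exact_mod_cast hreg' i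
  have hsqR : ∀ i j, ∑ k, (A i k : ℝ) * A k j = 1 + 6 * (if i = j then 1 else 0) - A i j := by
    intro i j
    have h1 := hsq i j
    have h2 : (∑ k, (A i k : ℝ) * A k j) + A i j = ((if i = j then 7 else 1 : ℕ) : ℝ) := by
      exact_mod_cast h1
    have h3 : (∑ k, (A i k : ℝ) * A k j) = ((if i = j then 7 else 1 : ℕ) : ℝ) - A i j := by
      linarith
    rw [h3]
    split_ifs <;> push_cast <;> ring
  let P : Matrix (Fin 50) (Fin 50) ℝ := fun i j => ((3 * (if i = j then 1 else 0) + A i j) - 1/5)/5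
  have hP : P * P = P := by
    ext i j
    rw [Matrix.mul_apply]
    show ∑ k, (((3 * (if i = k then 1 else 0) + (A i k : ℝ)) - 1/5)/5) *
      (((3 * (if k = j then 1 else 0) + (A k j : ℝ)) - 1/5)/5) =
      ((3 * (if i = j then 1 else 0) + (A i j : ℝ)) - 1/5)/5
    have h1 : ∀ k, (((3 * (if i = k then (1:ℝ) else 0) + (A i k : ℝ)) - 1/5)/5) *
      (((3 * (if k = j then (1:ℝ) else 0) + (A k j : ℝ)) - 1/5)/5) =
      1/25 * (9 * ((if i = k then (1:ℝ) else 0) * (if k = j then (1:ℝ) else 0)) +
        3 * ((if i = k then (1:ℝ) else 0) * A k j) + 3 * (A i k * (if k = j then (1:ℝ) else 0)) +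
        A i k * A k j - 3/5 * (if i = k then (1:ℝ) else 0) - 3/5 * (if k = j then (1:ℝ) else 0)
        - 1/5 * A i k - 1/5 * A k j + 1/25) := by
      intro k; ring
    rw [Finset.sum_congr rfl (fun k _ => h1 k), ← Finset.mul_sum]
    simp only [Finset.sum_add_distrib, Finset.sum_sub_distrib, ← Finset.mul_sum]
    rw [hsqR i j, hregR i, hregR' j]
    simp only [Finset.sum_const, Finset.card_univ, Fintype.card_fin, ite_mul, mul_ite, one_mul,
      zero_mul, mul_one, mul_zero, Finset.sum_ite_eq, Finset.sum_ite_eq', Finset.mem_univ, if_true,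
      nsmul_eq_mul]
    by_cases hij : i = j
    · subst hij
      simp
      ring
    · simp [hij]
      ring
  have hPs : ∀ i j, P i j = P j i := by
    intro i j
    show ((3 * (if i = j then 1 else 0) + (A i j : ℝ)) - 1/5)/5 =
      ((3 * (if j = i then 1 else 0) + (A j i : ℝ)) - 1/5)/5
    rw [hsymm i j]
    simp only [eq_comm]
  have htr : P.trace = ((28 : ℕ) : ℝ) := by
    have h1 : ∀ i, P i i = 14/25 := by
      intro i
      show ((3 * (if i = i then 1 else 0) + (A i i : ℝ)) - 1/5)/5 = 14/25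
      rw [hdiag i]
      norm_num
    rw [Matrix.trace]
    simp only [Matrix.diag_apply, h1]
    simp
    norm_num
  obtain ⟨x, hx⟩ := gram P hP hPs htr
  let q : Fin 50 → EuclideanSpace ℝ (Fin 29) := fun i =>
    WithLp.toLp 2 (Fin.snoc (α := fun _ => ℝ) (fun r : Fin 28 => √(5/6) * x i r) (1/√30))
  have hin : ∀ i j, inner ℝ (q i) (q j) = (3 * (if i = j then 1 else 0) + (A i j : ℝ))/6 := by
    intro i j
    have h1 : inner ℝ (q i) (q j) = ∑ r : Fin 29, q i r * q j r := by
      simp only [PiLp.inner_apply, RCLike.inner_apply, conj_trivial]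
      exact Finset.sum_congr rfl (fun k _ => mul_comm _ _)
    have h2 : inner ℝ (x i) (x j) = ∑ r : Fin 28, x i r * x j r := by
      simp only [PiLp.inner_apply, RCLike.inner_apply, conj_trivial]
      exact Finset.sum_congr rfl (fun k _ => mul_comm _ _)
    have h3 : ∑ r : Fin 29, q i r * q j r =
        ∑ r : Fin 28, (√(5/6) * x i r) * (√(5/6) * x j r) + (1/√30) * (1/√30) := by
      rw [Fin.sum_univ_castSucc]
      simp only [q, Fin.snoc_castSucc, Fin.snoc_last]
    have h4 : ∑ r : Fin 28, (√(5/6) * x i r) * (√(5/6) * x j r) =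
        5/6 * ∑ r : Fin 28, x i r * x j r := by
      rw [Finset.mul_sum]
      refine Finset.sum_congr rfl (fun r _ => ?_)
      have : √(5/6 : ℝ) * √(5/6) = 5/6 := Real.mul_self_sqrt (by norm_num)
      calc _ = (√(5/6) * √(5/6)) * (x i r * x j r) := by ring
        _ = _ := by rw [this]
    have h5 : (1/√30) * (1/√30) = (1/30 : ℝ) := by
      have : √(30 : ℝ) * √30 = 30 := Real.mul_self_sqrt (by norm_num)
      rw [div_mul_div_comm, this, one_mul]
    rw [h1, h3, h4, h5, ← h2, hx]
    show 5/6 * (((3 * (if i = j then 1 else 0) + (A i j : ℝ)) - 1/5)/5) + 1/30 =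
      (3 * (if i = j then 1 else 0) + (A i j : ℝ))/6
    ring
  have hnorm : ∀ i, ‖q i‖ ^ 2 = 1/2 := by
    intro i
    rw [← real_inner_self_eq_norm_sq, hin, hdiag i]
    norm_num
  have hdist : ∀ i j, i ≠ j → dist (q i) (q j) ^ 2 = 1 - A i j / 3 := by
    intro i j hij
    rw [dist_eq_norm, norm_sub_sq_real, hnorm, hnorm, hin, if_neg hij]
    ring
  have hdist1 : ∀ i j, i ≠ j → A i j = 0 → dist (q i) (q j) = 1 := by
    intro i j hij h0
    have h1 := hdist i j hij
    rw [h0] at h1
    have h2 : dist (q i) (q j) ^ 2 = 1 := by simpa using h1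
    have h3 : 0 ≤ dist (q i) (q j) := dist_nonneg
    nlinarith
  refine ⟨q, ⟨?_, ?_, ?_⟩, hnorm, ?_⟩
  · intro i j hqij
    by_contra hij
    have h1 := hdist i j hij
    rw [hqij, dist_self] at h1
    have h2 : (A i j : ℝ) ≤ 1 := by exact_mod_cast hle i j
    norm_num at h1
    linarith
  · intro i j
    by_cases hij : i = j
    · subst hij
      rw [dist_self]; norm_num
    · have h1 := hdist i j hij
      have h2 : (0 : ℝ) ≤ A i j := Nat.cast_nonneg _
      have h3 : 0 ≤ dist (q i) (q j) := dist_nonneg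
      nlinarith
  · intro i j k hij hjk hik
    by_cases h1 : A i j = 0
    · left; exact hdist1 i j hij h1
    have h1' : A i j = 1 := by have := hle i j; omega
    have h2 := htri i j k hij h1'
    rcases Nat.mul_eq_zero.mp h2 with h3 | h3
    · right; right; exact hdist1 i k hik h3
    · right; left
      rw [hsymm] at h3
      exact hdist1 j k hjk h3
  · refine ⟨∑ j, (3/5 : ℝ) • q j, ?_⟩
    intro i
    rw [sum_inner]
    have h1 : ∀ j, inner ℝ ((3/5 : ℝ) • q j) (q i) =
        1/10 * (3 * (if j = i then (1:ℝ) else 0) + (A j i : ℝ)) := by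
      intro j
      rw [inner_smul_left, hin]
      simp only [conj_trivial]
      ring
    rw [Finset.sum_congr rfl (fun j _ => h1 j), ← Finset.mul_sum, Finset.sum_add_distrib,
      hregR' i]
    simp
    norm_num

end Pool.Agent.Helper81.AED.HS
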